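import Pool.Agent.Helper570.Poly
import Pool.Agent.Helper570.PolyLine
import Pool.Agent.Helper570.Bump
import Pool.Agent.Helper570.Nonsep

set_option autoImplicit false

namespace Pool.Agent.Results.MP_d64d0b_an.BumpNotPolyhedral

/-- `N` is a norm on `X` equivalent to the given one. -/
def IsEquivalentNorm {X : Type} [NormedAddCommGroup X] [NormedSpace ℝ X] (N : X → ℝ) : Prop :=
  (∀ x y : X, N (x + y) ≤ N x + N y) ∧ (∀ (c : ℝ) (x : X), N (c • x) = |c| * N x) ∧
    ∃ a b : ℝ, 0 < a ∧ 0 < b ∧ ∀ x : X, a * ‖x‖ ≤ N x ∧ N x ≤ b * ‖x‖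

/-- The closed `N`-unit ball of every finite-dimensional subspace `E` is the intersection of
finitely many closed half-spaces of `E`. -/
def IsPolyhedralNorm {X : Type} [NormedAddCommGroup X] [NormedSpace ℝ X] (N : X → ℝ) : Prop :=
  ∀ E : Submodule ℝ X, FiniteDimensional ℝ E →
    ∃ F : Finset (Module.Dual ℝ E × ℝ), ∀ x : E, N x ≤ 1 ↔ ∀ z ∈ F, z.1 x ≤ z.2

/-- `X` admits an equivalent polyhedral norm. -/
def IsIsomorphicallyPolyhedral (X : Type) [NormedAddCommGroup X] [NormedSpace ℝ X] : Prop :=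
  ∃ N : X → ℝ, IsEquivalentNorm N ∧ IsPolyhedralNorm N

/-- `b` depends locally on finitely many coordinates, on all of `X`. -/
def DependsLocallyOnFinitelyManyCoordinates {X : Type} [NormedAddCommGroup X] [NormedSpace ℝ X]
    (b : X → ℝ) : Prop :=
  ∀ x : X, ∃ O : Set X, IsOpen O ∧ x ∈ O ∧ ∃ (n : ℕ) (φ : Fin n → X →L[ℝ] ℝ)
    (g : (Fin n → ℝ) → ℝ), ∀ y ∈ O, b y = g (fun i => φ i y)

/-- `b` is a bump: continuous with bounded nonempty support. -/
def IsBump {X : Type} [NormedAddCommGroup X] [NormedSpace ℝ X] (b : X → ℝ) : Prop :=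
  Continuous b ∧ Bornology.IsBounded (tsupport b) ∧ (tsupport b).Nonempty

/-- There is a nonseparable Banach space that admits a bump depending locally on finitely many
coordinates but is not isomorphically polyhedral. -/
theorem result :
    ∃ (X : Type) (_ : NormedAddCommGroup X) (_ : NormedSpace ℝ X),
      CompleteSpace X ∧ ¬ TopologicalSpace.SeparableSpace X ∧
      (∃ b : X → ℝ, IsBump b ∧ DependsLocallyOnFinitelyManyCoordinates b) ∧
      ¬ IsIsomorphicallyPolyhedral X := by
  refine ⟨Helper570.Tree.X, inferInstance, inferInstance, inferInstance,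
    Helper570.Tree.not_separable, ⟨Helper570.Tree.bump, ⟨Helper570.Tree.bump_continuous, ?_, ?_⟩,
      Helper570.Tree.bump_lfc⟩, ?_⟩
  · apply Metric.isBounded_closedBall (x := (0 : Helper570.Tree.X)) (r := 2) |>.subset
    apply closure_minimal _ Metric.isClosed_closedBall
    intro f hf
    rw [mem_closedBall_zero_iff]
    exact Helper570.Tree.bump_supp hf
  · refine ⟨0, subset_closure ?_⟩
    show Helper570.Tree.bump 0 ≠ 0
    rw [Helper570.Tree.bump_zero]
    exact one_ne_zero
  · rintro ⟨N, ⟨hadd, hsmul, a, b, ha, hb, hab⟩, hpoly⟩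
    let p : Seminorm ℝ Helper570.Tree.X := Seminorm.of N hadd (fun c x => by
      rw [hsmul, Real.norm_eq_abs])
    obtain ⟨f, d, hf, hcore⟩ := Helper570.Tree.poly_core (p := p) ha hb (fun x => (hab x).2)
      (fun x => (hab x).1)
    have hp0 : ∀ x, p x = 0 → x = 0 := by
      intro x hx
      have h1 : a * ‖x‖ ≤ p x := (hab x).1
      rw [hx] at h1
      have h2 := norm_nonneg x
      have h3 : ‖x‖ = 0 := by nlinarith
      exact norm_eq_zero.1 h3
    obtain ⟨g, h1, h2, t, ht, h3⟩ := Helper570.poly_line (p := p) hp0 hpoly f d hf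
    exact hcore g h1 h2 t ht h3

end Pool.Agent.Results.MP_d64d0b_an.BumpNotPolyhedral
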